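import Pool.Agent.V11322.ZF.Mixed
import Pool.Agent.W282.LF.Top

/-!
# MP_a325a5_ag: Zilber-Pink with few places in products of modular curves, elliptic curves and tori:
transcendental members of one-parameter families, and a local criterion over function fields

The same theorem as `MP_eeb1a4_ag.MixedFewPlaces`. If the `E_g` have complex multiplication, then `𝔖` is a
mixed Shimura variety.

The Shimura variety `Y(1)^n` is identified with `ℂ^n` by the elliptic modular function
`jj = j = E₄³ / Δ`. Let `E_g : y² = x³ + A_g x + B_g`, `g = 1, …, r`, be elliptic curves over the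
complex numbers. The ambient variety is `𝔖 = Y(1)^n × ∏_g E_g^(k_g) × G_m^q` (`Amb`). A variety `X` with
a map to it carries the variation of mixed Hodge structures which is the direct sum of the
`R¹π_{i*} ℤ` of elliptic curves with invariants `x_i`, of the extensions of `ℤ` by `H_1 (E_g)` given by
the points `P_{g,i}` and of the extensions of `ℤ` by `ℤ(1)` given by the units `u_j`. The coordinates of
a point `(x, P, u)` of `𝔖` are the numbers `x_i`, `x (P_{g,i})` and `u_j` (`coords`).

**Setting.** Let `Λ` be a subring of `ℂ` with countable fraction field (a ring `Λ` with an injection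
`f : Λ → ℂ`), `A_g, B_g ∈ Λ`, `Y ⊆ P^N` a projective algebraic set given by forms `G l` over `Λ`, and
`a_s / b_s` quotients of forms of the same degree `d_s` over `Λ`, one for every coordinate, and let
`c_s ∈ Λ` be nonzero. Let `X ⊆ 𝔖` (`image`) be the set of all `(x, P, u)` with
`c_s s = a_s (y) / b_s (y)` for all coordinates `s`, for a point `y` of `Y` (with `P_{g,i}` the origin
if `b_s (y) = 0`; the equations are written without denominators, so that `X` is a closed set which
contains the image of `Y`).

**The special sets** `Z = Z_0 × ∏ Z_g × Z_m` (`Special.locus`):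
* `Z_0` is a special subvariety of `Y(1)^n`; its constant coordinates may be special points or numbers
  integral over `Λ`;
* `Z_g ⊆ E_g^(k_g)` is given by relations with coefficients in `ℤ`, or in an order `ℤ + ℤ φ` for a
  curve with complex multiplication: each of these combinations of the `P_{g,i}` has a positive
  multiple which is the origin (these `Z_g` are unions of the torsion translates of an algebraic
  subgroup) or, more generally, a point with an `x`-coordinate integral over `Λ`;
* `Z_m` is a coset of an algebraic subgroup of `G_m^q` by a torsion point, or by a point whose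
  coordinates are, with their inverses, integral over `Λ`.
If the `E_g` are pairwise not isogenous (and `A_g, B_g` are algebraic for the `E_g` with complex
multiplication), the special subvarieties of `𝔖` are contained in such sets `Z` of the same
dimension.

**Local criterion** (first part of `result`). Suppose that there are
`min (m + 1, n - 1) + (q - 1) 2^q + 1` good places (`numPlaces`, with `n - 1`, `q - 1` replaced by `0`
for `n = 0`, `q = 0`; `GoodPlace`): homomorphisms `red` from `Λ` to algebraically closed fields of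
characteristic zero such that
* the reductions of the divisors `a_s b_s = 0` are in general position: no point of the reduction of
  `Y` lies on `m + 1` of them;
* `c_s` has the exact order `e_{l s} > 0` at the place,
and that the exponents are independent (`IndependentExponents`): for the modular coordinates, if `U`
is a nonempty set of places and `i_l ≠ j_l`, `l ∈ U`, are such that every coordinate occurs an even
number of times among the `i_l` and the `j_l`, then `∏_{l ∈ U} e_{l i_l} e_{l j_l}` is not a square; at
each place the exponents of the coordinates on the same curve `E_g` are pairwise different; for the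
torus coordinates any `q` of the exponent vectors are linearly independent. (For example, `e_{l i}`
different prime numbers for the modular, `1, …, k_g` for the elliptic, `(l + 1)^j`, `j < q`, for the
torus coordinates.)

Then `X` has no atypical intersection with the sets `Z`: every point of `X ∩ Z` has transcendence
degree at most `m - codim Z` over any countable field containing `Λ`, and every irreducible
constructible subset of `X ∩ Z` has dimension at most `m - codim Z`. In particular `X ∩ Z` is empty
if the codimension of `Z` is larger than `m`. Nothing is assumed on the reduction of the `E_g`.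

**Families** (second part, `Λ = K₀[t]`). Let `E_{g,t}` be one-parameter families of elliptic curves
and `X_t ⊆ Y(1)^n × ∏_g E_{g,t}^(k_g) × G_m^q` a one-parameter family of such sets, everything with
coefficients in `K₀[t]` for a field `K₀ ⊂ ℂ`. If at `min (m + 1, n - 1) + (q - 1) 2^q + 1` numbers
`α_l ∈ K₀` the polynomials `c_s` have zeros of independent orders, and the specializations at
`t = α_l` of the divisors are in general position, then for all transcendental `t = τ`, that is, all
`τ ∈ ℂ` not algebraic over `K₀` (for countable `K₀` all but countably many `τ`), the set `X_τ` has no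
atypical intersection.

In `MP_defd1c_ag.TranscendentalMembers` the number `n (n - 1) / 2` stands in place of
`min (m + 1, n - 1)` (with a weaker condition of independence for the modular coordinates). The number
of places now depends on `m` and `q` only: three for curves in `Y(1)^n × ∏_g E_g^(k_g)`.
-/

set_option autoImplicit false

namespace Pool.Agent.Results.MP_a325a5_ag.MixedFewPlaces

open H294ZP UpperHalfPlane MvPolynomial Pool.Agent.W466.EP Pool.Agent.W282.ZP Pool.Agent.W282.LF
  Pool.Agent.V11322.ZC

/-- The complex points of `Y(1)^n × ∏_g E_g^(k_g) × G_m^q`, where `Y(1) = ℂ` and `E_g = crv (A g) (B g)`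
is the curve `y² = x³ + A_g x + B_g`. -/
structure Amb {r : ℕ} (A B : Fin r → ℂ) (n : ℕ) (k : Fin r → ℕ) (q : ℕ) where
  x : Fin n → ℂ
  P : ∀ g, Fin (k g) → (crv (A g) (B g)).Point
  u : Fin q → ℂˣ

/-- The index set of the coordinates `x_i`, `x (P_{g,i})`, `u_j`. -/
abbrev Ind {r : ℕ} (n : ℕ) (k : Fin r → ℕ) (q : ℕ) : Type :=
  Fin n ⊕ (((g : Fin r) × Fin (k g)) ⊕ Fin q)

/-- The coordinates `x_i`, `x (P_{g,i})` (which is `0` by definition if `P_{g,i}` is the origin) and
`u_j`. -/
noncomputable def coords {r : ℕ} {A B : Fin r → ℂ} {n : ℕ} {k : Fin r → ℕ} {q : ℕ}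
    (z : Amb A B n k q) : Ind n k q → ℂ :=
  Sum.elim z.x (Sum.elim (fun i => xx (z.P i.1 i.2)) (fun j => (z.u j : ℂ)))

/-- A special subvariety of `Y(1)^n = ℂ^n` of dimension `r'` (with more constants allowed): a map
`cls` from the coordinates onto `r'` classes (`none` for constant coordinates), an integral matrix
of positive determinant for every coordinate, and a constant for every coordinate, which is a
special point or integral over `Λ`. -/
structure SpecialVariety {Λ : Type} [CommRing Λ] (f : Λ →+* ℂ) (n r' : ℕ) where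
  cls : Fin n → Option (Fin r')
  surj : ∀ l : Fin r', ∃ i, cls i = some l
  mat : Fin n → Matrix (Fin 2) (Fin 2) ℤ
  det_pos : ∀ i, 0 < (mat i).det
  const : Fin n → ℂ
  allowed : ∀ i, (∃ τ : ℍ, IsCM τ ∧ const i = jj τ) ∨ f.IsIntegralElem (const i)

/-- The points of the special subvariety: the constant coordinates are the given constants, and the
coordinates of class `l` are `j (g_i z_l)`, with a free parameter `z_l` in the upper half plane. -/
def SpecialVariety.locus {Λ : Type} [CommRing Λ] {f : Λ →+* ℂ} {n r' : ℕ}
    (Z : SpecialVariety f n r') : Set (Fin n → ℂ) :=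
  {x | ∃ z : Fin r' → ℍ, ∀ i, (Z.cls i = none → x i = Z.const i) ∧
    ∀ l, Z.cls i = some l → ∃ w : ℍ,
      (w : ℂ) * (Z.mat i 1 0 * z l + Z.mat i 1 1) = Z.mat i 0 0 * z l + Z.mat i 0 1 ∧
      x i = jj w}

/-- The relations between the `k` points of the elliptic curve `y² = x³ + A x + B`: a group `M` of
vectors of integral coefficients, or, for a curve with complex multiplication `cm`, a group `M` of
vectors of coefficients `(ρ_i).1 + (ρ_i).2 φ` in the order generated by `φ`. -/
inductive RelE (A B : ℂ) (k : ℕ)
  | int (M : Submodule ℤ (Fin k → ℤ))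
  | mul (cm : CM A B) (M : Submodule ℤ (Fin k → ℤ × ℤ))

/-- The codimension of the algebraic subgroup given by the relations. If `M` is a module over the
order then its rank over `ℤ` is twice its rank over the order; in general the order generates a
module with a rank at least half the rank of `M`. -/
noncomputable def RelE.codim {A B : ℂ} {k : ℕ} : RelE A B k → ℕ
  | .int M => Module.finrank ℤ M
  | .mul _ M => (Module.finrank ℤ M + 1) / 2

/-- The combinations of the points `P i` with the coefficients in `M` have positive multiples which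
are the origin or have an `x`-coordinate integral over `Λ` (`xx` is `0` at the origin). -/
def RelE.Has {Λ : Type} [CommRing Λ] (f : Λ →+* ℂ) {A B : ℂ} {k : ℕ} :
    RelE A B k → (Fin k → (crv A B).Point) → Prop
  | .int M, P => ∀ ρ ∈ M, ∃ t : ℕ, 0 < t ∧ f.IsIntegralElem (xx (t • ∑ i, ρ i • P i))
  | .mul cm M, P => ∀ ρ ∈ M, ∃ t : ℕ, 0 < t ∧
      f.IsIntegralElem (xx (t • ∑ i, ((ρ i).1 • P i + (ρ i).2 • cm.φ (P i))))

/-- The special sets `Z = Z_0 × ∏ Z_g × Z_m`. -/
structure Special {Λ : Type} [CommRing Λ] (f : Λ →+* ℂ) {r : ℕ} (A B : Fin r → ℂ) (n : ℕ)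
    (k : Fin r → ℕ) (q : ℕ) where
  dim : ℕ
  modular : SpecialVariety f n dim
  relE : ∀ g, RelE (A g) (B g) (k g)
  relm : Submodule ℤ (Fin q → ℤ)
  ptm : Fin q → ℂˣ
  unit : ∀ j, f.IsIntegralElem (ptm j : ℂ) ∧ f.IsIntegralElem (((ptm j)⁻¹ : ℂˣ) : ℂ)

/-- The points of `Z`. -/
def Special.locus {Λ : Type} [CommRing Λ] {f : Λ →+* ℂ} {r : ℕ} {A B : Fin r → ℂ} {n : ℕ}
    {k : Fin r → ℕ} {q : ℕ} (Z : Special f A B n k q) : Set (Amb A B n k q) :=
  {z | z.x ∈ Z.modular.locus ∧ (∀ g, (Z.relE g).Has f (z.P g)) ∧
    ∀ β ∈ Z.relm, ∏ j, z.u j ^ β j = ∏ j, Z.ptm j ^ β j}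

/-- The codimension of `Z`. -/
noncomputable def Special.codim {Λ : Type} [CommRing Λ] {f : Λ →+* ℂ} {r : ℕ} {A B : Fin r → ℂ}
    {n : ℕ} {k : Fin r → ℕ} {q : ℕ} (Z : Special f A B n k q) : ℕ :=
  (n - Z.dim) + ∑ g, (Z.relE g).codim + Module.finrank ℤ Z.relm

/-- `V` has no intersection of dimension larger than `m - codim Z` with the sets `Z`: every point
of `V ∩ Z` has transcendence degree at most `m - codim Z` over `K`, and every irreducible closed
set `W` of vectors, such that those outside of some hypersurface `h = 0`, which does not contain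
`W`, are vectors of coordinates (numbered in any way) of points of `V ∩ Z`, has dimension at most
`m - codim Z`. -/
def NoAtypical {Λ : Type} [CommRing Λ] (f : Λ →+* ℂ) (K : Subfield ℂ) {r : ℕ} {A B : Fin r → ℂ}
    {n : ℕ} {k : Fin r → ℕ} {q : ℕ} (m : ℕ) (V : Set (Amb A B n k q)) : Prop :=
  ∀ Z : Special f A B n k q,
    (∀ z ∈ V ∩ Z.locus, ∀ S : Finset (Ind n k q),
      AlgebraicIndependent K (fun s : S => coords z s) → S.card + Z.codim ≤ m) ∧
    ∀ (s : ℕ) (ε : Fin s ≃ Ind n k q) (W : Set (Fin s → ℂ)) (h : MvPolynomial (Fin s) ℂ),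
      (∀ w ∈ W, eval w h ≠ 0 → ∃ z ∈ V ∩ Z.locus, ∀ i, w i = coords z (ε i)) →
      zcl W ⊆ W → (idealOf W).IsPrime → h ∉ idealOf W →
      zdim W + (Z.codim : Cardinal) ≤ (m : Cardinal)

/-- `y` is a vector of homogeneous coordinates, in a field `F` to which `Λ` is mapped by `f`, of a
point of the projective algebraic set `Y` defined by the forms `G l`. -/
def OnY {Λ : Type} [CommRing Λ] {F : Type} [Field F] (f : Λ →+* F) {N : ℕ} {κ : Type}
    (G : κ → MvPolynomial (Fin (N + 1)) Λ) (y : Fin (N + 1) → F) : Prop :=
  y ≠ 0 ∧ ∀ l, eval₂ f y (G l) = 0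

/-- The divisors of the `a s / b s` are in general position over `F`: no point of `Y` lies on
`m + 1` of them. -/
def InGeneralPosition {Λ : Type} [CommRing Λ] {F : Type} [Field F] (f : Λ →+* F) {N r n q : ℕ}
    {k : Fin r → ℕ} {κ : Type} (m : ℕ) (G : κ → MvPolynomial (Fin (N + 1)) Λ)
    (a b : Ind n k q → MvPolynomial (Fin (N + 1)) Λ) : Prop :=
  ∀ I : Finset (Ind n k q), I.card = m + 1 → ∀ y : Fin (N + 1) → F, OnY f G y →
    ∃ i ∈ I, eval₂ f y (a i) * eval₂ f y (b i) ≠ 0

/-- The set `X`: the points of `𝔖` with coordinates `a_s (y) / (c_s b_s (y))`, `y` a point of `Y`. -/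
def image {Λ : Type} [CommRing Λ] (f : Λ →+* ℂ) {N r n q : ℕ} {k : Fin r → ℕ} {κ : Type}
    (A B : Fin r → Λ) (G : κ → MvPolynomial (Fin (N + 1)) Λ)
    (a b : Ind n k q → MvPolynomial (Fin (N + 1)) Λ) (c : Ind n k q → Λ) :
    Set (Amb (fun g => f (A g)) (fun g => f (B g)) n k q) :=
  {z | ∃ y, OnY f G y ∧
    (∀ i : Fin n, f (c (Sum.inl i)) * eval₂ f y (b (Sum.inl i)) * z.x i =
      eval₂ f y (a (Sum.inl i))) ∧
    (∀ i : (g : Fin r) × Fin (k g),
      (z.P i.1 i.2 = 0 ∧ eval₂ f y (b (Sum.inr (Sum.inl i))) = 0) ∨
      (z.P i.1 i.2 ≠ 0 ∧ f (c (Sum.inr (Sum.inl i))) * eval₂ f y (b (Sum.inr (Sum.inl i))) *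
        xx (z.P i.1 i.2) = eval₂ f y (a (Sum.inr (Sum.inl i))))) ∧
    ∀ j : Fin q, f (c (Sum.inr (Sum.inr j))) * eval₂ f y (b (Sum.inr (Sum.inr j))) * (z.u j : ℂ) =
      eval₂ f y (a (Sum.inr (Sum.inr j)))}

/-- The number of places (`n - 1` and `q - 1` are `0` for `n = 0` and `q = 0`). -/
def numPlaces (n m q : ℕ) : ℕ := min (m + 1) (n - 1) + (q - 1) * 2 ^ q + 1

/-- The exponents at the places are positive and independent: on polygons for the modular
coordinates, different for the elliptic coordinates, and linearly independent for the torus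
coordinates. -/
def IndependentExponents {r n q L : ℕ} {k : Fin r → ℕ} (e : Fin L → Ind n k q → ℕ) : Prop :=
  (∀ l i, 0 < e l i) ∧
  (∀ U : Finset (Fin L), U.Nonempty → ∀ i j : Fin L → Fin n, (∀ l ∈ U, i l ≠ j l) →
    (∀ v, Even ((U.filter fun l => i l = v).card + (U.filter fun l => j l = v).card)) →
    ¬ IsSquare (∏ l ∈ U, e l (Sum.inl (i l)) * e l (Sum.inl (j l)))) ∧
  (∀ l (g : Fin r) (i j : Fin (k g)), i ≠ j →
    e l (Sum.inr (Sum.inl ⟨g, i⟩)) ≠ e l (Sum.inr (Sum.inl ⟨g, j⟩))) ∧
  ∀ I : Finset (Fin L), I.card = q → ∀ β : Fin q → ℤ,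
    (∀ l ∈ I, ∑ j, β j * (e l (Sum.inr (Sum.inr j)) : ℤ) = 0) → β = 0

theorem IndependentExponents.cyc {r n q L : ℕ} {k : Fin r → ℕ} {e : Fin L → Ind n k q → ℕ}
    (h : IndependentExponents e) : V11322.ZF.Cyc 1 fun l (i : Fin n) => e l (Sum.inl i) := by
  intro U hU i j t ht hev hsq
  refine h.2.1 U hU i j (fun l hl => (ht l hl).1) hev ?_
  have h1 : ∏ l ∈ U, t l * (e l (Sum.inl (i l)) * e l (Sum.inl (j l))) =
      ∏ l ∈ U, e l (Sum.inl (i l)) * e l (Sum.inl (j l)) := by
    refine Finset.prod_congr rfl fun l hl => ?_
    obtain ⟨-, h2, h3⟩ := ht l hl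
    have h4 : t l = 1 := by omega
    rw [h4, one_mul]
  rwa [h1] at hsq

/-- A good place of the data: a homomorphism `red` to an algebraically closed field `F` of
characteristic zero over which the divisors are in general position, such that `c i` has the exact
order `e i` at the place, `a' (c i) = b' ϖ ^ (e i)` with `ϖ ≠ 0`, `red ϖ = 0` and `a'`, `b'`
invertible at the place. -/
structure GoodPlace {Λ : Type} [CommRing Λ] {N r n q : ℕ} {k : Fin r → ℕ} {κ : Type} (m : ℕ)
    (G : κ → MvPolynomial (Fin (N + 1)) Λ) (a b : Ind n k q → MvPolynomial (Fin (N + 1)) Λ)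
    (c : Ind n k q → Λ) (e : Ind n k q → ℕ) where
  F : Type
  [field : Field F]
  [closed : IsAlgClosed F]
  [char : CharZero F]
  red : Λ →+* F
  general : InGeneralPosition red m G a b
  ϖ : Λ
  ϖ_ne : ϖ ≠ 0
  red_ϖ : red ϖ = 0
  order : ∀ i, ∃ a' b' : Λ, red a' ≠ 0 ∧ red b' ≠ 0 ∧ a' * c i = b' * ϖ ^ e i

theorem main {Λ : Type} [CommRing Λ] (f : Λ →+* ℂ) (hf : Function.Injective f) (K : Subfield ℂ)
    [Countable K] (hK : ∀ a, f a ∈ K) {κ : Type} {N r n q m : ℕ} {k : Fin r → ℕ}
    (A B : Fin r → Λ) (G : κ → MvPolynomial (Fin (N + 1)) Λ)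
    (hG : ∀ k, ∃ e, (G k).IsHomogeneous e) (a b : Ind n k q → MvPolynomial (Fin (N + 1)) Λ)
    (d : Ind n k q → ℕ) (ha : ∀ i, (a i).IsHomogeneous (d i)) (hb : ∀ i, (b i).IsHomogeneous (d i))
    (c : Ind n k q → Λ) (e : Fin (numPlaces n m q) → Ind n k q → ℕ) (he : IndependentExponents e)
    (P : ∀ l, GoodPlace m G a b c (e l)) :
    NoAtypical f K m (image f A B G a b c) := by
  classical
  have hdom : IsDomain Λ := hf.isDomain f
  let _ : Algebra Λ ℂ := f.toAlgebra
  let fK : Λ →+* K := f.codRestrict K hK
  let _ : Algebra Λ K := fK.toAlgebra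
  have hst : IsScalarTower Λ K ℂ := IsScalarTower.of_algebraMap_eq fun _ => rfl
  have hfK : Function.Injective (algebraMap Λ K) := fun a b h => hf (congrArg Subtype.val h)
  let F := algebraicClosure K ℂ
  have hacF : IsAlgClosed F := by
    have hcl : IsAlgClosure K F := inferInstance
    exact hcl.isAlgClosed
  let fF : Λ →+* F := (algebraMap K F).comp fK
  let _ : Algebra Λ F := fF.toAlgebra
  have hstF : IsScalarTower Λ F ℂ := IsScalarTower.of_algebraMap_eq fun _ => rfl
  have hfF : Function.Injective (algebraMap Λ F) :=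
    fun a b h => hf (congrArg (algebraMap F ℂ) h)
  intro Z
  have hdim : Z.dim ≤ n := by
    have h1 : Function.Injective fun l : Fin Z.dim => (Z.modular.surj l).choose := by
      intro l l' h
      have h2 := (Z.modular.surj l).choose_spec
      have h3 := (Z.modular.surj l').choose_spec
      have h4 : (Z.modular.surj l).choose = (Z.modular.surj l').choose := h
      rw [h4, h3] at h2
      exact (Option.some_injective _ h2).symm
    simpa using Fintype.card_le_of_injective _ h1
  have hN : ∀ i, 0 < (Z.modular.mat i).det.toNat := by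
    intro i
    have := Z.modular.det_pos i
    omega
  have hpt : ∀ z ∈ image f A B G a b c ∩ Z.locus, ∀ S : Finset (Ind n k q),
      AlgebraicIndependent K (fun s : S => coords z s) → S.card + Z.codim ≤ m := by
    rintro z ⟨⟨y, hy, hz1, hz2, hz3⟩, ⟨zz, hzz⟩, hzE, hzm⟩ S hS
    let inst : ∀ l, Field (P l).F := fun l => (P l).field
    have h := Pool.Agent.V11322.ZF.mainLF (k := F) hfF (m := m) G hG a b d ha hb c
      (fun l => RingHom.ker (P l).red) (fun l => RingHom.ker_isPrime (P l).red) ?_ ?_
      (fun l => (P l).ϖ) (fun l => (P l).red_ϖ) (fun l => (P l).ϖ_ne) e he.1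
      (fun l i => (P l).order i) he.cyc he.2.2.1 he.2.2.2 A B Z.modular.cls
      (fun i => (Z.modular.mat i).det.toNat) z.x hN ?_ ?_
      z.P (fun g => (Z.relE g).codim) ?_ (fun j => (z.u j : ℂ)) Z.relm ?_ y hy.1 hy.2 hz1
      (fun i => (hz2 i).imp id fun h => h.2) hz3 S (hS.extendScalars F)
    · have h2 : Z.codim = (n - Z.dim) + ∑ g, (Z.relE g).codim + Module.finrank ℤ Z.relm := rfl
      omega
    · intro l t ht h1
      rw [RingHom.mem_ker, map_natCast] at h1
      have := (P l).char
      exact ht (Nat.cast_eq_zero.1 h1)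
    · intro l F' _ φ hφ I hI y' hy0 hyG
      have := (P l).closed
      by_contra hcon
      push Not at hcon
      apply hy0
      refine TH526.ZL.transfer
        (fun b' : κ ⊕ I => Sum.elim (fun k => G k) (fun i : I => a i * b i) b') (P l).red ?_ φ hφ
        y' ?_
      · intro y'' hy''
        by_contra h0
        obtain ⟨i, hi, h1⟩ := (P l).general I hI y'' ⟨h0, fun k => hy'' (Sum.inl k)⟩
        apply h1
        have h2 := hy'' (Sum.inr ⟨i, hi⟩)
        simp only [Sum.elim_inr, eval₂_mul] at h2
        exact h2
      · rintro (k | i)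
        · exact hyG k
        · simp only [Sum.elim_inr, eval₂_mul]
          exact hcon i i.2
    · intro i hi
      have e3 : z.x i = Z.modular.const i := (hzz i).1 hi
      rw [e3]
      rcases Z.modular.allowed i with ⟨τ, hτ, hc⟩ | h
      · rw [hc]
        exact (singular_modulus_integral τ hτ).tower_top
      · exact h
    · intro i j l hi hj
      obtain ⟨w, hw, hxw⟩ := (hzz i).2 l hi
      obtain ⟨w', hw', hxw'⟩ := (hzz j).2 l hj
      refine ⟨?_, ?_⟩
      · obtain ⟨a, b, c, d, e1, e2⟩ := isogeny_rel (Z.modular.det_pos i) hw hw'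
        rw [hxw, hxw']
        exact isogenous_integral w w' a b c d (by
          rw [e1]
          exact mul_pos (Z.modular.det_pos i) (Z.modular.det_pos j)) e2
      · have h5 := eval_relPoly_eq_zero (x := z.x) (Z.modular.det_pos i)
          (Z.modular.det_pos j) hw hw' hxw hxw'
        rw [eval_relPoly, Int.toNat_mul (Z.modular.det_pos i).le (Z.modular.det_pos j).le] at h5
        exact h5
    · intro g
      have h4 := hzE g
      generalize Z.relE g = R at h4 ⊢
      cases R with
      | int M => exact Pool.Agent.V11322.ZT.bd0Z M h4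
      | mul cm M => exact Pool.Agent.V11322.ZT.bd0CM cm M h4
    · intro β hβ V hV
      have h3 := congrArg (Units.val : ℂˣ → ℂ) (hzm β hβ)
      have h4 : ∀ w : Fin q → ℂˣ, ∏ j, (w j : ℂ) ^ β j = ((∏ j, w j ^ β j : ℂˣ) : ℂ) := by
        intro w
        rw [Units.coe_prod]
        refine Finset.prod_congr rfl fun j _ => ?_
        rw [Units.val_zpow_eq_zpow_val]
      rw [h4, h3, ← h4, map_prod]
      refine Finset.prod_eq_one fun j _ => ?_
      obtain ⟨h5, h6⟩ := Z.unit j
      rw [Units.val_inv_eq_inv_val] at h6
      rw [map_zpow₀, TH526.ZL.unit_of_int V hV (Units.ne_zero _) h5 h6, one_zpow]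
  refine ⟨hpt, ?_⟩
  intro s ε W h hW hcl hprime hh
  obtain ⟨w, hwW, hfw, T, hT, hdimW⟩ := generic_dim_open K W hprime hcl h hh
  obtain ⟨z, hz, hwz⟩ := hW w hwW hfw
  let S : Finset (Ind n k q) := T.map ε.toEmbedding
  have hS : AlgebraicIndependent K (fun s : S => coords z s) := by
    let f' : S → T := fun s => ⟨ε.symm s, by
      obtain ⟨t, ht, hts⟩ := Finset.mem_map.1 s.2
      have h2 : ε.symm (s : Ind n k q) = t := by
        rw [← hts]
        exact ε.symm_apply_apply t
      rw [h2]
      exact ht⟩
    have hf' : Function.Injective f' := by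
      intro s s' hss
      have h2 := congrArg (Subtype.val : T → Fin _) hss
      exact Subtype.ext (ε.symm.injective h2)
    have h2 := hT.comp f' hf'
    convert h2 using 1
    funext s
    change coords z s = w (ε.symm s)
    rw [hwz, ε.apply_symm_apply]
  have h2 := hpt z hz S hS
  rw [Finset.card_map] at h2
  calc zdim W + (Z.codim : Cardinal) ≤ (T.card : Cardinal) + (Z.codim : Cardinal) := by gcongr
    _ = ((T.card + Z.codim : ℕ) : Cardinal) := by push_cast; rfl
    _ ≤ (m : Cardinal) := by exact_mod_cast h2

/-- the value of a polynomial at a complex number -/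
noncomputable def evalAt (K₀ : Subfield ℂ) (z : ℂ) : Polynomial K₀ →+* ℂ :=
  (Polynomial.aeval z : Polynomial K₀ →ₐ[K₀] ℂ).toRingHom

/-- The first part is the local criterion, the second part the application to the transcendental
members of one-parameter families. -/
theorem result :
    (∀ (Λ : Type) [CommRing Λ] (f : Λ →+* ℂ), Function.Injective f →
      ∀ (K : Subfield ℂ) [Countable K], (∀ a, f a ∈ K) →
      ∀ (κ : Type) (N r n q m : ℕ) (k : Fin r → ℕ) (A B : Fin r → Λ)
      (G : κ → MvPolynomial (Fin (N + 1)) Λ), (∀ k, ∃ e, (G k).IsHomogeneous e) →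
      ∀ (a b : Ind n k q → MvPolynomial (Fin (N + 1)) Λ) (d : Ind n k q → ℕ),
      (∀ i, (a i).IsHomogeneous (d i)) → (∀ i, (b i).IsHomogeneous (d i)) →
      ∀ (c : Ind n k q → Λ) (e : Fin (numPlaces n m q) → Ind n k q → ℕ),
      IndependentExponents e →
      (∀ l, Nonempty (GoodPlace m G a b c (e l))) →
      NoAtypical f K m (image f A B G a b c)) ∧
    (∀ (K₀ : Subfield ℂ) (κ : Type) (N r n q m : ℕ) (k : Fin r → ℕ)
      (A B : Fin r → Polynomial K₀) (G : κ → MvPolynomial (Fin (N + 1)) (Polynomial K₀)),
      (∀ k, ∃ e, (G k).IsHomogeneous e) →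
      ∀ (a b : Ind n k q → MvPolynomial (Fin (N + 1)) (Polynomial K₀)) (d : Ind n k q → ℕ),
      (∀ i, (a i).IsHomogeneous (d i)) → (∀ i, (b i).IsHomogeneous (d i)) →
      ∀ (c : Ind n k q → Polynomial K₀) (α : Fin (numPlaces n m q) → K₀),
      IndependentExponents (fun l i => (c i).rootMultiplicity (α l)) →
      (∀ l, InGeneralPosition (evalAt K₀ (α l)) m G a b) →
      ∀ τ : ℂ, Transcendental K₀ τ → ∀ (K : Subfield ℂ) [Countable K], K₀ ≤ K → τ ∈ K →
      NoAtypical (evalAt K₀ τ) K m (image (evalAt K₀ τ) A B G a b c)) := by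
  classical
  refine ⟨?_, ?_⟩
  · intro Λ _ f hf K _ hK κ N r n q m k A B G hG a b d ha hb c e he P
    exact main f hf K hK A B G hG a b d ha hb c e he fun l => (P l).some
  · intro K₀ κ N r n q m k A B G hG a b d ha hb c α he hpos τ hτ K _ hK₀ hτK
    have hf : Function.Injective (evalAt K₀ τ) := transcendental_iff_injective.1 hτ
    refine main (evalAt K₀ τ) hf K ?_ A B G hG a b d ha hb c
      (fun l i => (c i).rootMultiplicity (α l)) he fun l => ?_
    · intro a
      show Polynomial.aeval τ a ∈ K
      rw [Polynomial.aeval_eq_sum_range]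
      refine sum_mem fun i _ => ?_
      rw [Algebra.smul_def]
      exact mul_mem (hK₀ (a.coeff i).2) (pow_mem hτK i)
    · have hev2 : ∀ p : Polynomial K₀, evalAt K₀ (α l) p = ((p.eval (α l) : K₀) : ℂ) := by
        intro p
        show Polynomial.aeval (algebraMap K₀ ℂ (α l)) p = _
        rw [Polynomial.aeval_algebraMap_apply]
        rfl
      exact
        { F := ℂ
          red := evalAt K₀ (α l)
          general := hpos l
          ϖ := Polynomial.X - Polynomial.C (α l)
          ϖ_ne := Polynomial.X_sub_C_ne_zero (α l)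
          red_ϖ := by
            rw [hev2, Polynomial.eval_sub, Polynomial.eval_X, Polynomial.eval_C, sub_self]
            rfl
          order := by
            intro i
            have hc0 : c i ≠ 0 := by
              intro h0
              have := he.1 l i
              change 0 < (c i).rootMultiplicity (α l) at this
              rw [h0, Polynomial.rootMultiplicity_zero] at this
              exact lt_irrefl _ this
            obtain ⟨q, hq1, hq2⟩ :=
              Polynomial.exists_eq_pow_rootMultiplicity_mul_and_not_dvd (c i) hc0 (α l)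
            refine ⟨1, q, ?_, ?_, ?_⟩
            · rw [map_one]
              exact one_ne_zero
            · rw [hev2]
              intro h1
              apply hq2
              rw [Polynomial.dvd_iff_isRoot, Polynomial.IsRoot.def]
              exact Subtype.ext h1
            · rw [one_mul]
              conv_lhs => rw [hq1]
              ring }

end Pool.Agent.Results.MP_a325a5_ag.MixedFewPlaces
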