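import Pool.Agent.V1138.AT.Moeb
import Pool.Agent.Y152.RP.FamM

/-!
# MP_a325a5_ag: Zilber-Pink in the mixed Shimura varieties `Y_1 × … × Y_n × G_m^k` for all but finitely
many members with parameters in the orbits of the roots of unity under the modular group, of
one-parameter families

The Shimura variety `Y(1)^n` is identified with `ℂ^n` by the elliptic modular function
`jj = j = E₄³ / Δ`. The ambient variety is `Y(1)^n × G_m^k`, with coordinates indexed by
`Fin n ⊕ Fin k`, or more generally a product of modular curves of any levels (finite over `Y(1)^n`)
and a torus; for `n = 0` it is a torus, for `k = 0` a pure Shimura variety.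

**Families.** Let `K ⊂ ℂ` be a countable field. We consider algebraic families `X_t` of
subsets of `Y(1)^n × G_m^k` with one parameter `t`, given by
* a family `B_t ⊆ P^N` of projective algebraic sets, defined by forms `G` with coefficients in
  `K[t]`,
* quotients `f_i = A_i / B_i` of forms of the same degree `d_i` with coefficients in `K[t]`, one for
  every coordinate,
* functions `s_i` integral over `K[j]`, `R_i (s_i, j) = 0` with `R_i` monic in the first variable
  (level one: `R_i = S - J`, `s_i = j`; in general modular functions of any level without poles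
  in the upper half plane), and polynomials `c_i ∈ K[t]`;
`X_t` (`scaledImage`) is the set of all `(x, u)` such that for some `y ∈ B_t` and some `s` we have
`R_i (s_i, x_i) = 0`, `c_i (t) s_i = A_i (y) / B_i (y)` for the modular coordinates, and
`c_j (t) u_j = A_j (y) / B_j (y)` for the torus coordinates.

**Parameters.** The parameters are the numbers `t = (a + b ζ) / (c + d ζ)` with integers `a, b, c, d`,
`a d - b c ≠ 0`, and roots of unity `ζ` of any order, such that every prime number `p > R` which divides
the determinant `a d - b c` divides exactly one of the columns `(a, c)` and `(b, d)`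
(`IsMoebiusValue R`); `R` is any given number. They contain the orbits of all roots of unity under the
modular group, `t = g (ζ)` with `g ∈ PSL_2 (ℤ)` or `g ∈ PGL_2 (ℤ[1/R])` (the condition on the prime
numbers is empty), more generally the numbers `t = g (q ζ)` with such `g` and any rational number
`q ≠ 0`, and the numbers `t = a + b ζ` with `a` rational and `b ≠ 0` an integer (theorem
`Pool.Agent.V1138.AT.moeb_of_tr`), in particular all rational numbers. Neither the degree nor the
height of `t` is bounded, and `t` does not belong to a fixed finitely generated field.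

The family degenerates at the different rational values `t = α_1, …, α_M` of the parameter in the
following sense:
* no point of `B_{α_l}` lies on `m + 1` of the divisors of the `f_i` (at `t = α_l`), and
* the `c_i` have zeros at `α_l`, of orders `e_{l i} > 0`, and these orders are independent:
  for the modular coordinates `q e_{l i} e_{l j} e_{l' i} e_{l' j}` is not a square for `l ≠ l'`,
  `i ≠ j`, `1 ≤ q ≤ T^8`, where `T` bounds the degrees of the `R_i` (`T = 1` for level one), and for
  the torus coordinates any `k` of the vectors `(e_{l j})_j` are linearly independent.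

**Theorem.** Let `M ≥ n (n - 1) / 2 + k 2^k + 5`. For all but finitely many of these parameters `t`
the set `X_t` has no atypical intersection with the products
`Z × C`, `Z` a special subvariety of `Y(1)^n` and `C` a torsion coset: every irreducible subset of
`X_t ∩ (Z × C)`, closed in `ℂ^n × (ℂ^×)^k`, has dimension at most
`dim Z + dim C + m - (n + k)`, and the same bound holds for the transcendence degrees of the
points of `X_t ∩ (Z × C)` over `K`. The constant coordinates of `Z` can be special points or integral
over `ℤ[Γ]`, for any given finite subset `Γ` of `K`, and `C` can be any coset of an algebraic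
subgroup by a point `η` such that the `η_j` and `1 / η_j` are integral over `ℤ[Γ]`.

The local criterion is that of the starting file `MP_defd1c_ag.DivisionGroupParameters`, which treats
parameters of bounded degree, the numbers `t` with a rational power, and roots of unity.

For the parameters `a + b ζ` alone three instead of four additional degenerate members are enough
(theorem `Pool.Agent.V1138.AT.finite_badA`).

**The arithmetic** (`Pool.Agent.V1138.AT`). Let `ζ` be of order `n`, `α = u / v` one of the `α_l`, and
`U = u c - v a`, `V = v b - u d`. A prime factor `p > R` of the resultant of `U - V X` and the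
cyclotomic polynomial `Φ_n` divides the (homogenized) value at `α` of the minimal polynomial of `t`, since
`a + b X` and `c + d X` have no common zero `≠ 0` modulo `p`. If `n ≥ N (D)` and `U, V ≠ 0`, `|U| ≠ |V|`
then this resultant has a prime factor larger than `D` (theorem `AT.big`): up to the factor
`gcd (U, V) ^ φ (n)` it is at least `3 ^ ((φ (n) - 1) / 2)` by the inequality between the arithmetic and
the geometric mean, and its part at the primes `p ≤ D` divides `D!`, since it is not divisible by `p²`
for `n > D²`. The bound `N (D)` does not depend on `a, b, c, d`. The four exceptional cases, `α` the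
image of `0`, `∞`, `1` or `-1` under the transformation, are the reason for four additional
members. For the finitely many `n < N (D)`, if the values at three different `α` have no prime factor
larger than `D` then the numbers `(α - t) / (α' - t)` are `S`-units, and there are only finitely many
such `t` by the unit equation.
-/

set_option autoImplicit false

namespace Pool.Agent.Results.MP_a325a5_ag.MoebiusOrbits

open MvPolynomial
open Pool.Agent.Y152.RP.FamM (SpecialVariety NoAtypical InGeneralPosition scaledImage
  IndependentExponents)

/-- `t = (a + b ζ) / (c + d ζ)` with integers `a, b, c, d`, `a d - b c ≠ 0`, and a root of unity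
`ζ`, such that every prime number `p > R` which divides `a d - b c` divides exactly one of the
columns `(a, c)` and `(b, d)`. -/
def IsMoebiusValue (R : ℕ) (t : ℂ) : Prop :=
  ∃ (a b c d : ℤ) (ζ : ℂ), a * d - b * c ≠ 0 ∧ (∃ n : ℕ, 0 < n ∧ ζ ^ n = 1) ∧
    (c : ℂ) + d * ζ ≠ 0 ∧ t = (a + b * ζ) / (c + d * ζ) ∧
    ∀ p : ℕ, p.Prime → R < p → (p : ℤ) ∣ a * d - b * c →
      ((p : ℤ) ∣ a ∧ (p : ℤ) ∣ c ∧ ¬ ((p : ℤ) ∣ b ∧ (p : ℤ) ∣ d)) ∨
      ((p : ℤ) ∣ b ∧ (p : ℤ) ∣ d ∧ ¬ ((p : ℤ) ∣ a ∧ (p : ℤ) ∣ c))

/-- One-parameter families which degenerate at sufficiently many rational parameters: all but finitely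
many of the members with parameters `(a + b ζ) / (c + d ζ)` have no atypical intersection. -/
theorem result (K : Subfield ℂ) [Countable K] (κ : Type) [Finite κ] (N n k m M T : ℕ)
    (G : κ → MvPolynomial (Fin (N + 1)) (Polynomial K)) (hG : ∀ a, ∃ e, (G a).IsHomogeneous e)
    (A B : Fin n ⊕ Fin k → MvPolynomial (Fin (N + 1)) (Polynomial K)) (δ : Fin n ⊕ Fin k → ℕ)
    (hA : ∀ i, (A i).IsHomogeneous (δ i)) (hB : ∀ i, (B i).IsHomogeneous (δ i))
    (R : Fin n → Polynomial (Polynomial K)) (hR : ∀ i, (R i).Monic)
    (hT : ∀ i u w, ((R i).coeff u).coeff w ≠ 0 → u ≤ T ∧ w ≤ T)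
    (c : Fin n ⊕ Fin k → Polynomial K) (α : Fin M → ℚ) (hα : Function.Injective α)
    (hind : IndependentExponents T fun l i => (c i).rootMultiplicity ((α l : ℚ) : K))
    (hpos : ∀ l, InGeneralPosition ((α l : ℚ) : ℂ) m G A B) (Γ : Finset ℂ)
    (hΓ : ∀ γ ∈ Γ, γ ∈ K) (R₀ : ℕ) (hM : n.choose 2 + k * 2 ^ k + 5 ≤ M) :
    {t : ℂ | IsMoebiusValue R₀ t ∧ ¬ NoAtypical
      (algebraMap (Algebra.adjoin ℤ (Γ : Set ℂ)) ℂ) K m (scaledImage t G A B R c)}.Finite :=
  Pool.Agent.Y152.RP.FamM.family K κ N n k m M T G hG A B δ hA hB R hR hT c α hind
    hpos Γ hΓ {t | IsMoebiusValue R₀ t}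
    (fun t ht => Pool.Agent.V1138.AT.alg_of_moeb R₀ t ht)
    (by omega) fun D => Pool.Agent.V1138.AT.finite_badM R₀ D (by omega) α hα

end Pool.Agent.Results.MP_a325a5_ag.MoebiusOrbits
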