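import Pool.Agent.V1138.KR.Real
import Pool.Agent.Y152.RP.FamM

/-!
# MP_a325a5_ag: Zilber-Pink in the mixed Shimura varieties `Y_1 × … × Y_n × G_m^k` for all but finitely
many members of one-parameter families, with values of a rational function at radicals as
parameters

The Shimura variety `Y(1)^n` is identified with `ℂ^n` by the elliptic modular function
`jj = j = E₄³ / Δ`. The ambient variety is `Y(1)^n × G_m^k`, with coordinates indexed by
`Fin n ⊕ Fin k`, or more generally a product of modular curves of any levels (finite over `Y(1)^n`)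
and a torus; for `n = 0` it is a torus, for `k = 0` a pure Shimura variety.

**Families.** Let `K ⊂ ℂ` be a countable field. We consider algebraic families `X_t` of
subsets of `Y(1)^n × G_m^k` with one parameter `t`, given by
* a family `B_t ⊆ P^N` of projective algebraic sets, defined by forms `G` with coefficients in
  `K[t]`,
* quotients `f_i = A_i / B_i` of forms of the same degree `d_i` with coefficients in `K[t]`, one for
  every coordinate,
* functions `s_i` integral over `K[j]`, `R_i (s_i, j) = 0` with `R_i` monic in the first variable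
  (level one: `R_i = S - J`, `s_i = j`; in general modular functions of any level without poles
  in the upper half plane), and polynomials `c_i ∈ K[t]`;
`X_t` (`scaledImage`) is the set of all `(x, u)` such that for some `y ∈ B_t` and some `s` we have
`R_i (s_i, x_i) = 0`, `c_i (t) s_i = A_i (y) / B_i (y)` for the modular coordinates, and
`c_j (t) u_j = A_j (y) / B_j (y)` for the torus coordinates.

**Parameters.** Let `Γ₀` be a finitely generated subgroup of `ℚ^×`. We call `ξ` a pure radical over
`Γ₀` if `ξ ^ N = γ` for some `N > 0` and some rational number `γ` which has a power in `Γ₀`, and `ξ`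
has degree `N` over `ℚ` (`IsPureRadical`). For example all real numbers with a power in `Γ₀`, and
their conjugates, are pure radicals (theorem `Pool.Agent.V1138.KR.pure_of_real`). Let `f = P / Q` be
a rational function, where `P` and `Q` are coprime polynomials with integral coefficients. The
parameters are the values `t = f (ξ)` of `f` at the pure radicals `ξ` over `Γ₀` (`IsRadicalValue`),
for example the numbers `2^(1/N) + 2^(-1/N)`, or `1 + 6^(k/N)`. These parameters are algebraic
numbers of unbounded degree and unbounded height. A rational number `α` is called independent if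
`f (x) = α` for at least one `x ≠ 0` with no power in `Γ₀` (for `f = X`: no power of `α ≠ 0` is in
`Γ₀`).

The family degenerates at the independent rational values `t = α_1, …, α_M` of the parameter in
the following sense:
* no point of `B_{α_l}` lies on `m + 1` of the divisors of the `f_i` (at `t = α_l`), and
* the `c_i` have zeros at `α_l`, of orders `e_{l i} > 0`, and these orders are independent:
  for the modular coordinates `q e_{l i} e_{l j} e_{l' i} e_{l' j}` is not a square for `l ≠ l'`,
  `i ≠ j`, `1 ≤ q ≤ T^8`, where `T` bounds the degrees of the `R_i` (`T = 1` for level one), and for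
  the torus coordinates any `k` of the vectors `(e_{l j})_j` are linearly independent.

**Theorem.** Let `M ≥ n (n - 1) / 2 + k 2^k + 1`. For all but finitely many `t = f (ξ)`
the set `X_t` has no atypical intersection with the products
`Z × C`, `Z` a special subvariety of `Y(1)^n` and `C` a torsion coset: every irreducible subset of
`X_t ∩ (Z × C)`, closed in `ℂ^n × (ℂ^×)^k`, has dimension at most
`dim Z + dim C + m - (n + k)`, and the same bound holds for the transcendence degrees of the
points of `X_t ∩ (Z × C)` over `K`. The constant coordinates of `Z` can be special points or integral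
over `ℤ[Γ]`, for any given finite subset `Γ` of `K`, and `C` can be any coset of an algebraic
subgroup by a point `η` such that the `η_j` and `1 / η_j` are integral over `ℤ[Γ]`.

The degree of `t` is unbounded. The local criterion is that of the starting file
`MP_defd1c_ag.DivisionGroupParameters`, which treats parameters of bounded degree, the numbers `t`
with a rational power, and roots of unity.

**The arithmetic** (`Pool.Agent.V1138.KR`). If `α = u / v` is independent then for all but finitely
many parameters `t = f (ξ)` the (homogenized) value at `α` of the minimal polynomial of `t` has a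
prime factor larger than a given number `D`. Otherwise the resultant of `u Q - v P` and the minimal
polynomial of `ξ`, `ξ ^ N = γ`, has only small prime factors, hence `β ^ N - γ` is an `S`-unit for
every zero `β` of `u Q - v P`, with a fixed finite set `S`. By the unit equation `β ^ N / γ` is one of
finitely many numbers, and if no power of `β` is in `Γ₀` this number determines `N` and `γ`.
-/

set_option autoImplicit false

namespace Pool.Agent.Results.MP_a325a5_ag.RadicalValues

open MvPolynomial
open Pool.Agent.Y152.RP.FamM (SpecialVariety NoAtypical InGeneralPosition scaledImage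
  IndependentExponents)

/-- `ξ ^ N = γ` for some `N > 0` and `γ ∈ ℚ^×` with a power in `Γ₀`, and `ξ` has degree `N`. -/
def IsPureRadical (Γ₀ : Subgroup ℚˣ) (ξ : ℂ) : Prop :=
  ∃ N : ℕ, 0 < N ∧ ∃ γ : ℚˣ, (∃ m : ℕ, 0 < m ∧ γ ^ m ∈ Γ₀) ∧ ξ ^ N = ((γ : ℚ) : ℂ) ∧
    N ≤ (minpoly ℚ ξ).natDegree

/-- `t` is the value of `P / Q` at a pure radical over `Γ₀`. -/
def IsRadicalValue (Γ₀ : Subgroup ℚˣ) (P Q : Polynomial ℤ) (t : ℂ) : Prop :=
  ∃ ξ : ℂ, IsPureRadical Γ₀ ξ ∧ Polynomial.aeval ξ Q ≠ 0 ∧
    t = Polynomial.aeval ξ P / Polynomial.aeval ξ Q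

/-- `P` and `Q` have no common factor over the rational numbers. -/
def NoCommonFactor (P Q : Polynomial ℤ) : Prop :=
  IsCoprime (P.map (Int.castRingHom ℚ)) (Q.map (Int.castRingHom ℚ))

/-- `P / Q` takes the value `α` at a nonzero number which has no power in `Γ₀`. -/
def Independent (Γ₀ : Subgroup ℚˣ) (P Q : Polynomial ℤ) (α : ℚ) : Prop :=
  ∃ x : ℂ, x ≠ 0 ∧ Polynomial.aeval x P = (α : ℂ) * Polynomial.aeval x Q ∧
    ∀ m : ℕ, 0 < m → ∀ γ ∈ Γ₀, x ^ m ≠ ((γ : ℚ) : ℂ)

/-- One-parameter families which degenerate at sufficiently many independent rational parameters: all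
but finitely many of the members with parameters `P (ξ) / Q (ξ)` have no atypical
intersection. -/
theorem result (K : Subfield ℂ) [Countable K] (κ : Type) [Finite κ] (N n k m M T : ℕ)
    (G : κ → MvPolynomial (Fin (N + 1)) (Polynomial K)) (hG : ∀ a, ∃ e, (G a).IsHomogeneous e)
    (A B : Fin n ⊕ Fin k → MvPolynomial (Fin (N + 1)) (Polynomial K)) (δ : Fin n ⊕ Fin k → ℕ)
    (hA : ∀ i, (A i).IsHomogeneous (δ i)) (hB : ∀ i, (B i).IsHomogeneous (δ i))
    (R : Fin n → Polynomial (Polynomial K)) (hR : ∀ i, (R i).Monic)
    (hT : ∀ i u w, ((R i).coeff u).coeff w ≠ 0 → u ≤ T ∧ w ≤ T)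
    (c : Fin n ⊕ Fin k → Polynomial K) (α : Fin M → ℚ)
    (hind : IndependentExponents T fun l i => (c i).rootMultiplicity ((α l : ℚ) : K))
    (hpos : ∀ l, InGeneralPosition ((α l : ℚ) : ℂ) m G A B) (Γ : Finset ℂ)
    (hΓ : ∀ γ ∈ Γ, γ ∈ K) (hM : n.choose 2 + k * 2 ^ k + 1 ≤ M)
    (Γ₀ : Subgroup ℚˣ) (hΓ₀ : Γ₀.FG)
    (P Q : Polynomial ℤ) (hPQ : NoCommonFactor P Q) (hα : ∀ l, Independent Γ₀ P Q (α l)) :
    {t : ℂ | IsRadicalValue Γ₀ P Q t ∧ ¬ NoAtypical
      (algebraMap (Algebra.adjoin ℤ (Γ : Set ℂ)) ℂ) K m (scaledImage t G A B R c)}.Finite :=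
  Pool.Agent.Y152.RP.FamM.family K κ N n k m M T G hG A B δ hA hB R hR hT c α hind
    hpos Γ hΓ {t | IsRadicalValue Γ₀ P Q t}
    (fun t ht => Pool.Agent.V1138.KR.alg_of_value Γ₀ P Q t ht) hM
    fun D => Pool.Agent.V1138.KR.finite_badK D hM α Γ₀ hΓ₀ P Q hPQ hα

end Pool.Agent.Results.MP_a325a5_ag.RadicalValues
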